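import Mathlib

namespace Pool.Agent.Results.MP_fa5fea_an.FivePoints

open Matrix

/-- The Pauli matrices, an irreducible representation of the Clifford relations for `d = 3`. -/
def pauli : Fin 3 → Matrix (Fin 2) (Fin 2) ℂ :=
  ![!![0, 1; 1, 0], !![0, -Complex.I; Complex.I, 0], !![1, 0; 0, -1]]

/-- The Clifford spectrum of three `n × n` matrices, computed with the Pauli matrices. -/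
def cliffordSpectrum {n : ℕ} (A : Fin 3 → Matrix (Fin n) (Fin n) ℂ) : Set (Fin 3 → ℝ) :=
  {x | ¬ IsUnit (∑ j, Matrix.kronecker (A j - (x j : ℂ) • (1 : Matrix (Fin n) (Fin n) ℂ)) (pauli j))}

def A0 : Fin 3 → Matrix (Fin 3) (Fin 3) ℂ :=
  ![!![0, 0, 0; 0, 0, 1; 0, 1, 0], !![0, 0, 1; 0, 0, 0; 1, 0, 0], !![0, 1, 0; 1, 0, 0; 0, 0, 0]]

lemma elim (a b c I v0 v1 v2 v3 v4 v5 : ℂ) (hI : I ^ 2 + 1 = 0)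
    (h0 : -c * v0 + (-a + I * b) * v1 + v2 - I * v5 = 0)
    (h1 : (-a - I * b) * v0 + c * v1 - v3 + I * v4 = 0)
    (h2 : v0 - c * v2 + (-a + I * b) * v3 + v5 = 0)
    (h3 : -v1 + (-a - I * b) * v2 + c * v3 + v4 = 0)
    (h4 : -I * v1 + v3 - c * v4 + (-a + I * b) * v5 = 0)
    (h5 : I * v0 + v2 + (-a - I * b) * v4 + c * v5 = 0) (p : ℂ)
    (hp : p = (a ^ 2 + b ^ 2 + c ^ 2) * (a ^ 2 + b ^ 2 + c ^ 2 + 1) ^ 2 - 16 * (a * b * c)) :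
    p * v0 = 0 ∧ p * v1 = 0 ∧ p * v2 = 0 ∧ p * v3 = 0 ∧ p * v4 = 0 ∧ p * v5 = 0 := by
  subst hp
  refine ⟨?_, ?_, ?_, ?_, ?_, ?_⟩
  · linear_combination (-1) * (((1)*c^1+(2)*c^3+(1)*c^5+(2)*b^2*c^1+(2)*b^2*c^3+(1)*b^4*c^1+(-4)*a^1*b^1+(-2)*a^2*c^1+(2)*a^2*c^3+(2)*a^2*b^2*c^1+(1)*a^4*c^1) + I * 0) * h0 + (-1) * (((-1)*a^1+(4)*a^1*c^2+(1)*a^1*c^4+(4)*a^1*b^2+(2)*a^1*b^2*c^2+(1)*a^1*b^4+(2)*a^3*c^2+(2)*a^3*b^2+(1)*a^5) + I * ((-1)*b^1+(-2)*b^1*c^2+(-1)*b^1*c^4+(-2)*b^3+(-2)*b^3*c^2+(-1)*b^5+(4)*a^1*c^1+(2)*a^2*b^1+(-2)*a^2*b^1*c^2+(-2)*a^2*b^3+(-1)*a^4*b^1)) * h1 + (-1) * (((1)*c^2+(1)*c^4+(-1)*b^2+(-1)*b^4+(4)*a^1*b^1*c^1+(-1)*a^2+(-2)*a^2*b^2+(-1)*a^4) + I * ((1)*c^1+(1)*c^3+(1)*b^2*c^1+(-4)*a^1*b^1+(1)*a^2*c^1))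 * h2 + (-1) * (((-1)*b^1+(-1)*b^1*c^2+(-1)*b^3+(2)*a^1*c^1+(2)*a^1*c^3+(2)*a^1*b^2*c^1+(3)*a^2*b^1+(2)*a^3*c^1) + I * ((-2)*b^1*c^1+(-2)*b^1*c^3+(-2)*b^3*c^1+(1)*a^1+(1)*a^1*c^2+(-3)*a^1*b^2+(-2)*a^2*b^1*c^1+(1)*a^3)) * h3 + (-1) * (((2)*b^1*c^1+(2)*b^1*c^3+(2)*b^3*c^1+(-1)*a^1+(3)*a^1*c^2+(-1)*a^1*b^2+(2)*a^2*b^1*c^1+(-1)*a^3) + I * ((-1)*b^1+(-1)*b^1*c^2+(-1)*b^3+(4)*a^1*c^1+(-1)*a^2*b^1)) * h4 + (-1) * (((-1)*c^1+(-1)*c^3+(-1)*b^2*c^1+(2)*a^1*b^1+(2)*a^1*b^1*c^2+(2)*a^1*b^3+(3)*a^2*c^1+(2)*a^3*b^1) + I * ((1)*c^2+(1)*c^4+(-1)*b^2+(-1)*b^4+(-4)*a^1*b^1*c^1+(1)*a^2+(2)*a^2*c^2+(1)*a^4)) * h5 + (((1)*c^2+(1)*c^4+(2)*b^2*c^2+(1)*b^2*c^4+(1)*b^4+(2)*b^4*c^2+(1)*b^6+(-8)*a^1*b^1*c^1+(1)*a^2+(2)*a^2*c^2+(-2)*a^2*b^2+(2)*a^2*b^2*c^2+(2)*a^2*b^4+(1)*a^4+(1)*a^4*b^2)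 * v0 + ((1)*b^1+(1)*b^1*c^2+(1)*b^3+(-4)*a^1*c^1+(1)*a^2*b^1) * v1 + ((2)*b^2*c^1+(2)*b^2*c^3+(2)*b^4*c^1+(-1)*a^1*b^1+(-1)*a^1*b^1*c^2+(3)*a^1*b^3+(2)*a^2*b^2*c^1+(-1)*a^3*b^1) * v2 + ((1)*b^1*c^1+(1)*b^1*c^3+(1)*b^3*c^1+(-4)*a^1*b^2+(1)*a^2*b^1*c^1) * v3 + ((-1)*b^1+(-3)*b^1*c^2+(-2)*b^1*c^4+(-1)*b^3+(-2)*b^3*c^2+(4)*a^1*c^1+(4)*a^1*b^2*c^1+(1)*a^2*b^1+(-4)*a^2*b^1*c^2+(-2)*a^2*b^3+(-2)*a^4*b^1) * v4 + ((-1)*b^2+(-1)*b^2*c^2+(-1)*b^4+(4)*a^1*b^1*c^1+(-1)*a^2*b^2) * v5) * hI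
  · linear_combination (-1) * (((-1)*a^1+(4)*a^1*c^2+(1)*a^1*c^4+(4)*a^1*b^2+(2)*a^1*b^2*c^2+(1)*a^1*b^4+(2)*a^3*c^2+(2)*a^3*b^2+(1)*a^5) + I * ((1)*b^1+(2)*b^1*c^2+(1)*b^1*c^4+(2)*b^3+(2)*b^3*c^2+(1)*b^5+(-4)*a^1*c^1+(-2)*a^2*b^1+(2)*a^2*b^1*c^2+(2)*a^2*b^3+(1)*a^4*b^1)) * h0 + (-1) * (((-1)*c^1+(-2)*c^3+(-1)*c^5+(-2)*b^2*c^1+(-2)*b^2*c^3+(-1)*b^4*c^1+(4)*a^1*b^1+(2)*a^2*c^1+(-2)*a^2*c^3+(-2)*a^2*b^2*c^1+(-1)*a^4*c^1) + I * 0) * h1 + (-1) * (((-1)*b^1+(-1)*b^1*c^2+(-1)*b^3+(2)*a^1*c^1+(2)*a^1*c^3+(2)*a^1*b^2*c^1+(3)*a^2*b^1+(2)*a^3*c^1) + I * ((2)*b^1*c^1+(2)*b^1*c^3+(2)*b^3*c^1+(-1)*a^1+(-1)*a^1*c^2+(3)*a^1*b^2+(2)*a^2*b^1*c^1+(-1)*a^3)) * h2 + (-1) * (((-1)*c^2+(-1)*c^4+(1)*b^2+(1)*b^4+(-4)*a^1*b^1*c^1+(1)*a^2+(2)*a^2*b^2+(1)*a^4)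 + I * ((1)*c^1+(1)*c^3+(1)*b^2*c^1+(-4)*a^1*b^1+(1)*a^2*c^1)) * h3 + (-1) * (((-1)*c^1+(-1)*c^3+(-1)*b^2*c^1+(2)*a^1*b^1+(2)*a^1*b^1*c^2+(2)*a^1*b^3+(3)*a^2*c^1+(2)*a^3*b^1) + I * ((-1)*c^2+(-1)*c^4+(1)*b^2+(1)*b^4+(4)*a^1*b^1*c^1+(-1)*a^2+(-2)*a^2*c^2+(-1)*a^4)) * h4 + (-1) * (((-2)*b^1*c^1+(-2)*b^1*c^3+(-2)*b^3*c^1+(1)*a^1+(-3)*a^1*c^2+(1)*a^1*b^2+(-2)*a^2*b^1*c^1+(1)*a^3) + I * ((-1)*b^1+(-1)*b^1*c^2+(-1)*b^3+(4)*a^1*c^1+(-1)*a^2*b^1)) * h5 + (((-1)*b^1+(-1)*b^1*c^2+(-1)*b^3+(4)*a^1*c^1+(-1)*a^2*b^1) * v0 + ((1)*c^2+(1)*c^4+(2)*b^2*c^2+(1)*b^2*c^4+(1)*b^4+(2)*b^4*c^2+(1)*b^6+(-8)*a^1*b^1*c^1+(1)*a^2+(2)*a^2*c^2+(-2)*a^2*b^2+(2)*a^2*b^2*c^2+(2)*a^2*b^4+(1)*a^4+(1)*a^4*b^2) * v1 + ((-1)*b^1*c^1+(-1)*b^1*c^3+(-1)*b^3*c^1+(4)*a^1*b^2+(-1)*a^2*b^1*c^1)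 * v2 + ((2)*b^2*c^1+(2)*b^2*c^3+(2)*b^4*c^1+(-1)*a^1*b^1+(-1)*a^1*b^1*c^2+(3)*a^1*b^3+(2)*a^2*b^2*c^1+(-1)*a^3*b^1) * v3 + ((1)*b^2+(1)*b^2*c^2+(1)*b^4+(-4)*a^1*b^1*c^1+(1)*a^2*b^2) * v4 + ((-1)*b^1+(-3)*b^1*c^2+(-2)*b^1*c^4+(-1)*b^3+(-2)*b^3*c^2+(4)*a^1*c^1+(4)*a^1*b^2*c^1+(1)*a^2*b^1+(-4)*a^2*b^1*c^2+(-2)*a^2*b^3+(-2)*a^4*b^1) * v5) * hI
  · linear_combination (-1) * (((1)*c^2+(1)*c^4+(-1)*b^2+(-1)*b^4+(4)*a^1*b^1*c^1+(-1)*a^2+(-2)*a^2*b^2+(-1)*a^4) + I * ((-1)*c^1+(-1)*c^3+(-1)*b^2*c^1+(4)*a^1*b^1+(-1)*a^2*c^1)) * h0 + (-1) * (((-1)*b^1+(-1)*b^1*c^2+(-1)*b^3+(2)*a^1*c^1+(2)*a^1*c^3+(2)*a^1*b^2*c^1+(3)*a^2*b^1+(2)*a^3*c^1) + I * ((-2)*b^1*c^1+(-2)*b^1*c^3+(-2)*b^3*c^1+(1)*a^1+(1)*a^1*c^2+(-3)*a^1*b^2+(-2)*a^2*b^1*c^1+(1)*a^3))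 * h1 + (-1) * (((1)*c^1+(2)*c^3+(1)*c^5+(-2)*b^2*c^1+(2)*b^2*c^3+(1)*b^4*c^1+(-4)*a^1*b^1+(2)*a^2*c^1+(2)*a^2*c^3+(2)*a^2*b^2*c^1+(1)*a^4*c^1) + I * 0) * h2 + (-1) * (((-4)*b^1*c^1+(1)*a^1+(2)*a^1*c^2+(1)*a^1*c^4+(-2)*a^1*b^2+(2)*a^1*b^2*c^2+(1)*a^1*b^4+(2)*a^3+(2)*a^3*c^2+(2)*a^3*b^2+(1)*a^5) + I * ((1)*b^1+(-4)*b^1*c^2+(-1)*b^1*c^4+(-2)*b^3*c^2+(-1)*b^5+(-4)*a^2*b^1+(-2)*a^2*b^1*c^2+(-2)*a^2*b^3+(-1)*a^4*b^1)) * h3 + (-1) * (((-1)*b^1+(3)*b^1*c^2+(-1)*b^3+(2)*a^1*c^1+(2)*a^1*c^3+(2)*a^1*b^2*c^1+(-1)*a^2*b^1+(2)*a^3*c^1) + I * ((-4)*b^1*c^1+(1)*a^1+(1)*a^1*c^2+(1)*a^1*b^2+(1)*a^3)) * h4 + (-1) * (((-1)*c^2+(-1)*c^4+(-1)*b^2+(-2)*b^2*c^2+(-1)*b^4+(4)*a^1*b^1*c^1+(1)*a^2+(1)*a^4) + I * ((1)*c^1+(1)*c^3+(-3)*b^2*c^1+(-2)*a^1*b^1+(-2)*a^1*b^1*c^2+(-2)*a^1*b^3+(1)*a^2*c^1+(-2)*a^3*b^1))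 * h5 + (((1)*c^1+(1)*c^3+(-1)*b^2*c^1+(2)*b^2*c^3+(2)*b^4*c^1+(-3)*a^1*b^1+(-3)*a^1*b^1*c^2+(1)*a^1*b^3+(1)*a^2*c^1+(2)*a^2*b^2*c^1+(-3)*a^3*b^1) * v0 + ((3)*b^1*c^1+(-1)*b^1*c^3+(-1)*b^3*c^1+(-1)*a^1+(-1)*a^1*c^2+(3)*a^1*b^2+(-1)*a^2*b^1*c^1+(-1)*a^3) * v1 + ((-1)*b^2+(4)*b^2*c^2+(1)*b^2*c^4+(2)*b^4*c^2+(1)*b^6+(4)*a^2*b^2+(2)*a^2*b^2*c^2+(2)*a^2*b^4+(1)*a^4*b^2) * v2 + 0 * v3 + ((-3)*b^1*c^1+(-3)*b^1*c^3+(1)*b^3*c^1+(1)*a^1+(1)*a^1*c^2+(-1)*a^1*b^2+(2)*a^1*b^2*c^2+(2)*a^1*b^4+(-3)*a^2*b^1*c^1+(1)*a^3+(2)*a^3*b^2) * v4 + ((1)*c^1+(1)*c^3+(-3)*b^2*c^1+(-3)*a^1*b^1+(1)*a^1*b^1*c^2+(1)*a^1*b^3+(1)*a^2*c^1+(1)*a^3*b^1) * v5) * hI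
  · linear_combination (-1) * (((-1)*b^1+(-1)*b^1*c^2+(-1)*b^3+(2)*a^1*c^1+(2)*a^1*c^3+(2)*a^1*b^2*c^1+(3)*a^2*b^1+(2)*a^3*c^1) + I * ((2)*b^1*c^1+(2)*b^1*c^3+(2)*b^3*c^1+(-1)*a^1+(-1)*a^1*c^2+(3)*a^1*b^2+(2)*a^2*b^1*c^1+(-1)*a^3)) * h0 + (-1) * (((-1)*c^2+(-1)*c^4+(1)*b^2+(1)*b^4+(-4)*a^1*b^1*c^1+(1)*a^2+(2)*a^2*b^2+(1)*a^4) + I * ((-1)*c^1+(-1)*c^3+(-1)*b^2*c^1+(4)*a^1*b^1+(-1)*a^2*c^1)) * h1 + (-1) * (((-4)*b^1*c^1+(1)*a^1+(2)*a^1*c^2+(1)*a^1*c^4+(-2)*a^1*b^2+(2)*a^1*b^2*c^2+(1)*a^1*b^4+(2)*a^3+(2)*a^3*c^2+(2)*a^3*b^2+(1)*a^5) + I * ((-1)*b^1+(4)*b^1*c^2+(1)*b^1*c^4+(2)*b^3*c^2+(1)*b^5+(4)*a^2*b^1+(2)*a^2*b^1*c^2+(2)*a^2*b^3+(1)*a^4*b^1)) * h2 + (-1) * (((-1)*c^1+(-2)*c^3+(-1)*c^5+(2)*b^2*c^1+(-2)*b^2*c^3+(-1)*b^4*c^1+(4)*a^1*b^1+(-2)*a^2*c^1+(-2)*a^2*c^3+(-2)*a^2*b^2*c^1+(-1)*a^4*c^1)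 + I * 0) * h3 + (-1) * (((-1)*c^2+(-1)*c^4+(-1)*b^2+(-2)*b^2*c^2+(-1)*b^4+(4)*a^1*b^1*c^1+(1)*a^2+(1)*a^4) + I * ((-1)*c^1+(-1)*c^3+(3)*b^2*c^1+(2)*a^1*b^1+(2)*a^1*b^1*c^2+(2)*a^1*b^3+(-1)*a^2*c^1+(2)*a^3*b^1)) * h4 + (-1) * (((1)*b^1+(-3)*b^1*c^2+(1)*b^3+(-2)*a^1*c^1+(-2)*a^1*c^3+(-2)*a^1*b^2*c^1+(1)*a^2*b^1+(-2)*a^3*c^1) + I * ((-4)*b^1*c^1+(1)*a^1+(1)*a^1*c^2+(1)*a^1*b^2+(1)*a^3)) * h5 + (((-3)*b^1*c^1+(1)*b^1*c^3+(1)*b^3*c^1+(1)*a^1+(1)*a^1*c^2+(-3)*a^1*b^2+(1)*a^2*b^1*c^1+(1)*a^3) * v0 + ((1)*c^1+(1)*c^3+(-1)*b^2*c^1+(2)*b^2*c^3+(2)*b^4*c^1+(-3)*a^1*b^1+(-3)*a^1*b^1*c^2+(1)*a^1*b^3+(1)*a^2*c^1+(2)*a^2*b^2*c^1+(-3)*a^3*b^1) * v1 + 0 * v2 + ((-1)*b^2+(4)*b^2*c^2+(1)*b^2*c^4+(2)*b^4*c^2+(1)*b^6+(4)*a^2*b^2+(2)*a^2*b^2*c^2+(2)*a^2*b^4+(1)*a^4*b^2)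 * v3 + ((-1)*c^1+(-1)*c^3+(3)*b^2*c^1+(3)*a^1*b^1+(-1)*a^1*b^1*c^2+(-1)*a^1*b^3+(-1)*a^2*c^1+(-1)*a^3*b^1) * v4 + ((-3)*b^1*c^1+(-3)*b^1*c^3+(1)*b^3*c^1+(1)*a^1+(1)*a^1*c^2+(-1)*a^1*b^2+(2)*a^1*b^2*c^2+(2)*a^1*b^4+(-3)*a^2*b^1*c^1+(1)*a^3+(2)*a^3*b^2) * v5) * hI
  · linear_combination (-1) * (((2)*b^1*c^1+(2)*b^1*c^3+(2)*b^3*c^1+(-1)*a^1+(3)*a^1*c^2+(-1)*a^1*b^2+(2)*a^2*b^1*c^1+(-1)*a^3) + I * ((1)*b^1+(1)*b^1*c^2+(1)*b^3+(-4)*a^1*c^1+(1)*a^2*b^1)) * h0 + (-1) * (((-1)*c^1+(-1)*c^3+(-1)*b^2*c^1+(2)*a^1*b^1+(2)*a^1*b^1*c^2+(2)*a^1*b^3+(3)*a^2*c^1+(2)*a^3*b^1) + I * ((1)*c^2+(1)*c^4+(-1)*b^2+(-1)*b^4+(-4)*a^1*b^1*c^1+(1)*a^2+(2)*a^2*c^2+(1)*a^4)) * h1 + (-1) * (((-1)*b^1+(3)*b^1*c^2+(-1)*b^3+(2)*a^1*c^1+(2)*a^1*c^3+(2)*a^1*b^2*c^1+(-1)*a^2*b^1+(2)*a^3*c^1)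 + I * ((4)*b^1*c^1+(-1)*a^1+(-1)*a^1*c^2+(-1)*a^1*b^2+(-1)*a^3)) * h2 + (-1) * (((-1)*c^2+(-1)*c^4+(-1)*b^2+(-2)*b^2*c^2+(-1)*b^4+(4)*a^1*b^1*c^1+(1)*a^2+(1)*a^4) + I * ((1)*c^1+(1)*c^3+(-3)*b^2*c^1+(-2)*a^1*b^1+(-2)*a^1*b^1*c^2+(-2)*a^1*b^3+(1)*a^2*c^1+(-2)*a^3*b^1)) * h3 + (-1) * (((-1)*c^1+(1)*c^5+(4)*b^2*c^1+(2)*b^2*c^3+(1)*b^4*c^1+(4)*a^2*c^1+(2)*a^2*c^3+(2)*a^2*b^2*c^1+(1)*a^4*c^1) + I * 0) * h4 + (-1) * (((-4)*b^1*c^1+(1)*a^1+(-2)*a^1*c^2+(1)*a^1*c^4+(2)*a^1*b^2+(2)*a^1*b^2*c^2+(1)*a^1*b^4+(2)*a^3+(2)*a^3*c^2+(2)*a^3*b^2+(1)*a^5) + I * ((-1)*b^1+(2)*b^1*c^2+(-1)*b^1*c^4+(-2)*b^3+(-2)*b^3*c^2+(-1)*b^5+(4)*a^1*c^1+(-2)*a^2*b^1+(-2)*a^2*b^1*c^2+(-2)*a^2*b^3+(-1)*a^4*b^1)) * h5 + (((-1)*b^1+(1)*b^1*c^2+(-2)*b^1*c^4+(-1)*b^3+(-2)*b^3*c^2+(4)*a^1*c^1+(4)*a^1*b^2*c^1+(-3)*a^2*b^1+(-4)*a^2*b^1*c^2+(-2)*a^2*b^3+(-2)*a^4*b^1)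 * v0 + ((1)*b^2+(1)*b^2*c^2+(1)*b^4+(-4)*a^1*b^1*c^1+(1)*a^2*b^2) * v1 + ((-1)*b^1*c^1+(-1)*b^1*c^3+(3)*b^3*c^1+(2)*a^1*b^2+(2)*a^1*b^2*c^2+(2)*a^1*b^4+(-1)*a^2*b^1*c^1+(2)*a^3*b^2) * v2 + ((4)*b^2*c^1+(-1)*a^1*b^1+(-1)*a^1*b^1*c^2+(-1)*a^1*b^3+(-1)*a^3*b^1) * v3 + ((1)*c^2+(1)*c^4+(-2)*b^2*c^2+(1)*b^2*c^4+(1)*b^4+(2)*b^4*c^2+(1)*b^6+(-8)*a^1*b^1*c^1+(1)*a^2+(2)*a^2*c^2+(2)*a^2*b^2+(2)*a^2*b^2*c^2+(2)*a^2*b^4+(1)*a^4+(1)*a^4*b^2) * v4 + ((-1)*b^1+(-1)*b^1*c^2+(-1)*b^3+(4)*a^1*c^1+(-1)*a^2*b^1) * v5) * hI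
  · linear_combination (-1) * (((-1)*c^1+(-1)*c^3+(-1)*b^2*c^1+(2)*a^1*b^1+(2)*a^1*b^1*c^2+(2)*a^1*b^3+(3)*a^2*c^1+(2)*a^3*b^1) + I * ((-1)*c^2+(-1)*c^4+(1)*b^2+(1)*b^4+(4)*a^1*b^1*c^1+(-1)*a^2+(-2)*a^2*c^2+(-1)*a^4)) * h0 + (-1) * (((-2)*b^1*c^1+(-2)*b^1*c^3+(-2)*b^3*c^1+(1)*a^1+(-3)*a^1*c^2+(1)*a^1*b^2+(-2)*a^2*b^1*c^1+(1)*a^3) + I * ((1)*b^1+(1)*b^1*c^2+(1)*b^3+(-4)*a^1*c^1+(1)*a^2*b^1)) * h1 + (-1) * (((-1)*c^2+(-1)*c^4+(-1)*b^2+(-2)*b^2*c^2+(-1)*b^4+(4)*a^1*b^1*c^1+(1)*a^2+(1)*a^4) + I * ((-1)*c^1+(-1)*c^3+(3)*b^2*c^1+(2)*a^1*b^1+(2)*a^1*b^1*c^2+(2)*a^1*b^3+(-1)*a^2*c^1+(2)*a^3*b^1)) * h2 + (-1) * (((1)*b^1+(-3)*b^1*c^2+(1)*b^3+(-2)*a^1*c^1+(-2)*a^1*c^3+(-2)*a^1*b^2*c^1+(1)*a^2*b^1+(-2)*a^3*c^1) + I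 * ((4)*b^1*c^1+(-1)*a^1+(-1)*a^1*c^2+(-1)*a^1*b^2+(-1)*a^3)) * h3 + (-1) * (((-4)*b^1*c^1+(1)*a^1+(-2)*a^1*c^2+(1)*a^1*c^4+(2)*a^1*b^2+(2)*a^1*b^2*c^2+(1)*a^1*b^4+(2)*a^3+(2)*a^3*c^2+(2)*a^3*b^2+(1)*a^5) + I * ((1)*b^1+(-2)*b^1*c^2+(1)*b^1*c^4+(2)*b^3+(2)*b^3*c^2+(1)*b^5+(-4)*a^1*c^1+(2)*a^2*b^1+(2)*a^2*b^1*c^2+(2)*a^2*b^3+(1)*a^4*b^1)) * h4 + (-1) * (((1)*c^1+(-1)*c^5+(-4)*b^2*c^1+(-2)*b^2*c^3+(-1)*b^4*c^1+(-4)*a^2*c^1+(-2)*a^2*c^3+(-2)*a^2*b^2*c^1+(-1)*a^4*c^1) + I * 0) * h5 + (((-1)*b^2+(-1)*b^2*c^2+(-1)*b^4+(4)*a^1*b^1*c^1+(-1)*a^2*b^2) * v0 + ((-1)*b^1+(1)*b^1*c^2+(-2)*b^1*c^4+(-1)*b^3+(-2)*b^3*c^2+(4)*a^1*c^1+(4)*a^1*b^2*c^1+(-3)*a^2*b^1+(-4)*a^2*b^1*c^2+(-2)*a^2*b^3+(-2)*a^4*b^1) * v1 + ((-4)*b^2*c^1+(1)*a^1*b^1+(1)*a^1*b^1*c^2+(1)*a^1*b^3+(1)*a^3*b^1)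 * v2 + ((-1)*b^1*c^1+(-1)*b^1*c^3+(3)*b^3*c^1+(2)*a^1*b^2+(2)*a^1*b^2*c^2+(2)*a^1*b^4+(-1)*a^2*b^1*c^1+(2)*a^3*b^2) * v3 + ((1)*b^1+(1)*b^1*c^2+(1)*b^3+(-4)*a^1*c^1+(1)*a^2*b^1) * v4 + ((1)*c^2+(1)*c^4+(-2)*b^2*c^2+(1)*b^2*c^4+(1)*b^4+(2)*b^4*c^2+(1)*b^6+(-8)*a^1*b^1*c^1+(1)*a^2+(2)*a^2*c^2+(2)*a^2*b^2+(2)*a^2*b^2*c^2+(2)*a^2*b^4+(1)*a^4+(1)*a^4*b^2) * v5) * hI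

lemma mem_iff (x : Fin 3 → ℝ) : x ∈ cliffordSpectrum A0 ↔ ∃ v : Fin 3 × Fin 2 → ℂ, v ≠ 0 ∧
    -(x 2 : ℂ) * v (0, 0) + (-x 0 + Complex.I * x 1) * v (0, 1) + v (1, 0) -
      Complex.I * v (2, 1) = 0 ∧
    (-x 0 - Complex.I * x 1) * v (0, 0) + x 2 * v (0, 1) - v (1, 1) + Complex.I * v (2, 0) = 0 ∧
    v (0, 0) - x 2 * v (1, 0) + (-x 0 + Complex.I * x 1) * v (1, 1) + v (2, 1) = 0 ∧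
    -v (0, 1) + (-x 0 - Complex.I * x 1) * v (1, 0) + x 2 * v (1, 1) + v (2, 0) = 0 ∧
    -Complex.I * v (0, 1) + v (1, 1) - x 2 * v (2, 0) + (-x 0 + Complex.I * x 1) * v (2, 1) = 0 ∧
    Complex.I * v (0, 0) + v (1, 0) + (-x 0 - Complex.I * x 1) * v (2, 0) + x 2 * v (2, 1) = 0 := by
  rw [cliffordSpectrum, Set.mem_setOf_eq, Matrix.isUnit_iff_isUnit_det, isUnit_iff_ne_zero,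
    not_not, ← Matrix.exists_mulVec_eq_zero_iff]
  refine exists_congr fun v => and_congr_right fun _ => ?_
  rw [funext_iff]
  simp only [Prod.forall, Fin.forall_fin_succ, IsEmpty.forall_iff, and_true, and_assoc]
  refine and_congr ?_ (and_congr ?_ (and_congr ?_ (and_congr ?_ (and_congr ?_ ?_)))) <;>
    (apply Eq.congr_left
     simp [mulVec, dotProduct, Fintype.sum_prod_type, Fin.sum_univ_three, A0, pauli,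
       Matrix.kronecker, Matrix.one_apply]
     ring)

lemma key (a b c : ℝ)
    (h : (a ^ 2 + b ^ 2 + c ^ 2) * (a ^ 2 + b ^ 2 + c ^ 2 + 1) ^ 2 = 16 * (a * b * c)) :
    (a = 0 ∧ b = 0 ∧ c = 0) ∨ (a ^ 2 = 1 / 9 ∧ b ^ 2 = 1 / 9 ∧ c ^ 2 = 1 / 9) := by
  set r := a ^ 2 + b ^ 2 + c ^ 2 with hr
  have hr0 : 0 ≤ r := by positivity
  rcases hr0.eq_or_lt with h0 | h0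
  · left
    refine ⟨?_, ?_, ?_⟩ <;> nlinarith [sq_nonneg a, sq_nonneg b, sq_nonneg c]
  right
  have hu := sq_nonneg a
  have hv := sq_nonneg b
  have hw := sq_nonneg c
  have h2 : r ^ 2 * (r + 1) ^ 4 = 256 * (a ^ 2 * b ^ 2 * c ^ 2) := by
    calc r ^ 2 * (r + 1) ^ 4 = (r * (r + 1) ^ 2) ^ 2 := by ring
      _ = _ := by rw [h]; ring
  generalize a ^ 2 = u at *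
  generalize b ^ 2 = v at *
  generalize c ^ 2 = w at *
  have am : r ^ 3 - 27 * (u * v * w) =
      r / 2 * ((u - v) ^ 2 + (v - w) ^ 2 + (w - u) ^ 2) +
        3 * (u * (v - w) ^ 2 + v * (w - u) ^ 2 + w * (u - v) ^ 2) := by
    rw [hr]; ring
  have e2 : 27 * (r + 1) ^ 4 - 256 * r = (3 * r - 1) ^ 2 * (3 * r ^ 2 + 14 * r + 27) := by ring
  have p1 : 0 ≤ u * (v - w) ^ 2 + v * (w - u) ^ 2 + w * (u - v) ^ 2 := by positivity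
  have p2 : 0 ≤ r / 2 * ((u - v) ^ 2 + (v - w) ^ 2 + (w - u) ^ 2) := by positivity
  have p3 : 0 ≤ r ^ 2 * ((3 * r - 1) ^ 2 * (3 * r ^ 2 + 14 * r + 27)) := by positivity
  have tot : r ^ 2 * ((3 * r - 1) ^ 2 * (3 * r ^ 2 + 14 * r + 27)) +
      256 * (r ^ 3 - 27 * (u * v * w)) = 0 := by
    rw [← e2]; linear_combination 27 * h2
  have z1 : r ^ 2 * ((3 * r - 1) ^ 2 * (3 * r ^ 2 + 14 * r + 27)) = 0 := by linarith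
  have z2 : r / 2 * ((u - v) ^ 2 + (v - w) ^ 2 + (w - u) ^ 2) = 0 := by linarith
  have z3 : 3 * r - 1 = 0 := by
    rcases mul_eq_zero.1 z1 with z | z
    · exact absurd z (by positivity)
    · rcases mul_eq_zero.1 z with z | z
      · exact pow_eq_zero_iff two_ne_zero |>.1 z
      · exact absurd z (by positivity)
  have z4 : (u - v) ^ 2 + (v - w) ^ 2 + (w - u) ^ 2 = 0 :=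
    (mul_eq_zero.1 z2).resolve_left (by positivity)
  have y1 := sq_nonneg (u - v)
  have y2 := sq_nonneg (v - w)
  have y3 := sq_nonneg (w - u)
  have z5 : u - v = 0 := pow_eq_zero_iff two_ne_zero |>.1 (by linarith)
  have z6 : v - w = 0 := pow_eq_zero_iff two_ne_zero |>.1 (by linarith)
  refine ⟨?_, ?_, ?_⟩ <;> linarith

lemma spec_eq : cliffordSpectrum A0 =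
    (({![0, 0, 0], ![1 / 3, 1 / 3, 1 / 3], ![1 / 3, -1 / 3, -1 / 3], ![-1 / 3, 1 / 3, -1 / 3],
      ![-1 / 3, -1 / 3, 1 / 3]} : Finset (Fin 3 → ℝ)) : Set (Fin 3 → ℝ)) := by
  ext x
  rw [mem_iff]
  have hx : x = ![x 0, x 1, x 2] := by ext i; fin_cases i <;> rfl
  constructor
  · rintro ⟨v, hv, h0, h1, h2, h3, h4, h5⟩
    obtain ⟨k0, k1, k2, k3, k4, k5⟩ :=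
      elim _ _ _ _ _ _ _ _ _ _ (by simp) h0 h1 h2 h3 h4 h5 _ rfl
    have h : (x 0 ^ 2 + x 1 ^ 2 + x 2 ^ 2) * (x 0 ^ 2 + x 1 ^ 2 + x 2 ^ 2 + 1) ^ 2 =
        16 * (x 0 * x 1 * x 2) := by
      by_contra hne
      apply hv
      have hp : ((x 0 : ℂ) ^ 2 + x 1 ^ 2 + x 2 ^ 2) * (x 0 ^ 2 + x 1 ^ 2 + x 2 ^ 2 + 1) ^ 2 -
          16 * (x 0 * x 1 * x 2) ≠ 0 := by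
        rw [sub_ne_zero]
        exact_mod_cast hne
      ext ⟨i, j⟩
      fin_cases i <;> fin_cases j
      exacts [(mul_eq_zero.1 k0).resolve_left hp, (mul_eq_zero.1 k1).resolve_left hp,
        (mul_eq_zero.1 k2).resolve_left hp, (mul_eq_zero.1 k3).resolve_left hp,
        (mul_eq_zero.1 k4).resolve_left hp, (mul_eq_zero.1 k5).resolve_left hp]
    rcases key _ _ _ h with ⟨h1, h2, h3⟩ | ⟨h1, h2, h3⟩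
    · rw [hx, h1, h2, h3]; simp
    · have s : ∀ t : ℝ, t ^ 2 = 1 / 9 → t = 1 / 3 ∨ t = -1 / 3 := by
        intro t ht
        have : (t - 1 / 3) * (t + 1 / 3) = 0 := by linear_combination ht
        rcases mul_eq_zero.1 this with h | h
        · left; linarith
        · right; linarith
      rcases s _ h1 with e1 | e1 <;> rcases s _ h2 with e2 | e2 <;> rcases s _ h3 with e3 | e3 <;>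
        first
        | (rw [hx, e1, e2, e3]; simp; done)
        | (rw [e1, e2, e3] at h; norm_num at h)
  · intro h
    simp only [Finset.coe_insert, Finset.coe_singleton, Set.mem_insert_iff,
      Set.mem_singleton_iff] at h
    rcases h with rfl | rfl | rfl | rfl | rfl
    · refine ⟨fun p => !![(⟨0, 0⟩ : ℂ), (⟨1, 0⟩ : ℂ); (⟨0, 0⟩ : ℂ), (⟨0, 1⟩ : ℂ); (⟨1, 0⟩ : ℂ), (⟨0, 0⟩ : ℂ)] p.1 p.2, fun h => ?_, ?_⟩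
      · simpa [Complex.ext_iff] using congrFun h (2, 0)
      · simp [Complex.ext_iff]
    · refine ⟨fun p => !![(⟨3, 1⟩ : ℂ), (⟨5, 1⟩ : ℂ); (⟨3, -1⟩ : ℂ), (⟨1, 5⟩ : ℂ); (⟨6, 0⟩ : ℂ), (⟨0, 0⟩ : ℂ)] p.1 p.2, fun h => ?_, ?_⟩
      · simpa [Complex.ext_iff] using congrFun h (2, 0)
      · simp [Complex.ext_iff]; norm_num
    · refine ⟨fun p => !![(⟨-3, 1⟩ : ℂ), (⟨5, -1⟩ : ℂ); (⟨3, 1⟩ : ℂ), (⟨-1, 5⟩ : ℂ); (⟨6, 0⟩ : ℂ), (⟨0, 0⟩ : ℂ)] p.1 p.2, fun h => ?_, ?_⟩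
      · simpa [Complex.ext_iff] using congrFun h (2, 0)
      · simp [Complex.ext_iff]; norm_num
    · refine ⟨fun p => !![(⟨3, -1⟩ : ℂ), (⟨5, -1⟩ : ℂ); (⟨-3, -1⟩ : ℂ), (⟨-1, 5⟩ : ℂ); (⟨6, 0⟩ : ℂ), (⟨0, 0⟩ : ℂ)] p.1 p.2, fun h => ?_, ?_⟩
      · simpa [Complex.ext_iff] using congrFun h (2, 0)
      · simp [Complex.ext_iff]; norm_num
    · refine ⟨fun p => !![(⟨-3, -1⟩ : ℂ), (⟨5, 1⟩ : ℂ); (⟨-3, 1⟩ : ℂ), (⟨1, 5⟩ : ℂ); (⟨6, 0⟩ : ℂ), (⟨0, 0⟩ : ℂ)] p.1 p.2, fun h => ?_, ?_⟩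
      · simpa [Complex.ext_iff] using congrFun h (2, 0)
      · simp [Complex.ext_iff]; norm_num

theorem result : ∃ A : Fin 3 → Matrix (Fin 3) (Fin 3) ℂ, (∀ j, (A j).IsHermitian) ∧
    (cliffordSpectrum A).Finite ∧ (cliffordSpectrum A).ncard = 5 := by
  refine ⟨A0, ?_, ?_, ?_⟩
  · intro j
    fin_cases j <;> (ext a b; fin_cases a <;> fin_cases b <;> simp [A0])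
  · rw [spec_eq]; exact Finset.finite_toSet _
  · rw [spec_eq, Set.ncard_coe_finset]
    rw [Finset.card_insert_of_notMem, Finset.card_insert_of_notMem, Finset.card_insert_of_notMem,
      Finset.card_insert_of_notMem, Finset.card_singleton] <;> simp <;> norm_num

end Pool.Agent.Results.MP_fa5fea_an.FivePoints
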